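import Mathlib
import Pool.Agent.Helper64.Vojta.OneSpace

set_option autoImplicit false

namespace Pool.Agent.Helper16.SQF

open MvPolynomial
open Pool.Agent.Helper64.Vojta (Pl nv nv_mul nv_one)

theorem aeval_hom {k K : Type*} [Field k] [Field K] [Algebra k K] {σ : Type*} {f : MvPolynomial σ k} {d : ℕ}
    (hf : f.IsHomogeneous d) (c : K) (x : σ → K) : aeval (fun a => c * x a) f = c ^ d * aeval x f := by
  rw [aeval_def, aeval_def, eval₂_eq, eval₂_eq, Finset.mul_sum]
  refine Finset.sum_congr rfl fun s hs => ?_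
  have h1 : ∑ i ∈ s.support, s i = d := by
    have h2 := hf (MvPolynomial.mem_support_iff.1 hs)
    rw [Finsupp.weight_apply, Finsupp.sum] at h2
    simpa using h2
  have h3 : ∏ i ∈ s.support, (c * x i) ^ s i = c ^ d * ∏ i ∈ s.support, x i ^ s i := by
    simp_rw [mul_pow]
    rw [Finset.prod_mul_distrib, Finset.prod_pow_eq_pow_sum, h1]
  rw [h3]
  ring

theorem nv_pow {L : Type*} [Field L] [NumberField L] (w : Pl L) (x : L) (n : ℕ) : nv w (x ^ n) = nv w x ^ n := by
  induction n with
  | zero => rw [pow_zero, pow_zero, nv_one]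
  | succ n ih => rw [pow_succ, nv_mul, ih, pow_succ]

end Pool.Agent.Helper16.SQF
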