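import Pool.Agent.Helper42.SQ.GDefs2

/-!
# SQ, stage 3 (helper16): the Galois form of the theorem on `P^n`; statements (do not import; copy your statement)
-/

set_option autoImplicit false

namespace Pool.Agent.SQ

open NumberField Filter Module
open Pool.Agent.Helper64.Vojta (Pl nv sn above)
open Pool.Agent.V2
open Pool.Agent.Chart (fld dg crd val hgt lam)

universe u

/-! ### FBg (uses `abs_g` of Stmt2 and `FB_comb_sum` of FB.lean with the index set `P × G`) -/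

theorem thmB_g {k K : Type u} [Field k] [CharZero k] [Field K] [Algebra k K] {G : Type*} [Group G] [Fintype G]
    (s : G →* (K ≃ₐ[k] K)) {P : Type*} [Fintype P] (ω : P → K → ℝ) (hω : ∀ v, RV k (ω v)) (c : P → G → ℝ)
    (V : Submodule k K) [FiniteDimensional k V] (ha : ∀ v g, ∀ x ∈ V, x ≠ 0 → 0 ≤ ω v (s g x) + c v g)
    (hS : ∀ (m : ℕ) (E : Submodule k K), E ≤ (∏ g, V.map (s g).toLinearMap) ^ m → (∀ z ∈ E, ∀ g, s g z = z) →
      ∀ (n : P → ℕ) (z : ∀ v, Fin (n v) → K), (∀ v, LinearIndependent k (z v)) → (∀ v i, z v i ∈ E) →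
        ∑ v, ∑ i, (ω v (z v i) + m * ∑ g, c v g) ≤ m * finrank k E)
    (h1 : ∀ v g, ∃ x ∈ V, x ≠ 0 ∧ ω v (s g x) + c v g = 0)
    (hpf : ∀ x ∈ V, x ≠ 0 → ∑ v, ∑ g, (ω v (s g x) + c v g) ≤ 1)
    {q p : ℕ} (L : Fin q → V) (hL : ∀ i, L i ≠ 0) (hC : Comb k L p) :
    ∑ v, ∑ g, ∑ i, (ω v (s g (L i)) + c v g) ≤ Fintype.card G * finrank k V + 2 * p := sorry

/-! ### GABg (as GA / GAg, with `thmB_g`) -/

theorem germsB_g {k : Type u} [Field k] [NumberField k] {G : Type} [Group G] [Fintype G] {D : SqG k G} {n : ℕ}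
    (x : ∀ a, Fin (n + 1) → D.L a) (hx : Ptg D x) {q : ℕ} (l : Fin q → Fin (n + 1) → k) (hl : ∀ i, l i ∉ vang D x)
    (hC : Comb k (fun i => (vang D x).mkQ (l i)) (finrank k (vang D x))) (P : Finset (Pl k)) {ε : ℝ} (hε : 0 < ε) :
    ∀ᶠ a in (D.U : Filter ℕ), ∑ v ∈ P, ∑ g, ∑ i, (Real.log (mxn (D.N a v) fun j => D.s a g (x a j)) -
      Real.log (D.N a v (D.s a g (lvg (l i) (x a))))) ≤
      (Fintype.card G * finrank k ((Fin (n + 1) → k) ⧸ vang D x) + 2 * finrank k (vang D x) + ε) * D.H a := sorry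

/-! ### FINg (as FIN / FINX, with `germsB_g`, `data_g`, `comb_of_not_bad`) -/

/-- The order `c` of the group is constant along `U`; `c ≥ 2`: `c (n + 1 - p) + 2 p ≤ c (n + 1)`; `c = 1`: `n + 1 + p ≤ 2 (n + 1)`. -/
theorem fin_main_g {k : Type u} [Field k] [NumberField k] {n q r : ℕ} (hr : 2 ≤ r) (l : Fin q → Fin (n + 1) → k)
    (hl : GenPos l) (S : Finset (Pl k)) {ε : ℝ} (hε : 0 < ε) :
    ∃ (A : Finset (Submodule k (Fin (n + 1) → k))) (C : ℝ), (∀ N ∈ A, Bad l N) ∧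
      ∀ x : Fin (n + 1) → AlgebraicClosure k, (∃ j, x j = 1) → finrank k (gal x) ≤ r → (∀ i, val (l i) x ≠ 0) →
        (∀ N ∈ A, ∃ m ∈ N, val m x ≠ 0) → ∑ ν ∈ S, ∑ i, lam (l i) ν x ≤ (r * (n + 1) + ε) * hgt x + C := sorry

/-- quadratic extensions are normal -/
theorem gal_le_two {k : Type u} [Field k] [NumberField k] {N : ℕ} (x : Fin N → AlgebraicClosure k) (h : dg x ≤ 2) :
    finrank k (gal x) ≤ 2 := sorry

end Pool.Agent.SQ
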